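import Mathlib

set_option autoImplicit false

/-!
Symmetric relations in which every closed pair has a midpoint (MP_a46c6f_co, target (C)).
If such a relation has an induced path on four vertices then it has one with loops `0, 1, 1, 0` and
without a bad vertex in its cylinder (helper44's proof; Claim A without Seinsche's theorem).
-/

namespace Pool.Agent.H61.P3

variable {V : Type*}

/-- an induced path `a - b - c - d` (for a symmetric relation the four points are different) -/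
def P4 (A : V → V → Prop) (a b c d : V) : Prop :=
  A a b ∧ A b c ∧ A c d ∧ ¬ A a c ∧ ¬ A a d ∧ ¬ A b d

/-- no induced path on four vertices in `D` -/
def Free (A : V → V → Prop) (D : Set V) : Prop :=
  ∀ a ∈ D, ∀ b ∈ D, ∀ c ∈ D, ∀ d ∈ D, ¬ P4 A a b c d

/-- every closed pair of `D` has a midpoint in `D` -/
def PairsOn (A : V → V → Prop) (D : Set V) : Prop :=
  ∀ u ∈ D, ∀ v ∈ D, (A u u ↔ A v v) → (A u v ↔ ¬ A u u) →
    ∃ g ∈ D, (A g g ↔ ¬ A u u) ∧ (A g u ↔ ¬ A u u) ∧ (A g v ↔ ¬ A u u) ∧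
      ∀ y ∈ D, (A u y ↔ A v y) → (A g y ↔ A u y)

/-- the part of `D` seen by `w` -/
def nb (A : V → V → Prop) (D : Set V) (w : V) : Set V := {x | x ∈ D ∧ A w x}

/-- the part of `D` not seen by `w` -/
def non (A : V → V → Prop) (D : Set V) (w : V) : Set V := {x | x ∈ D ∧ ¬ A w x}

theorem Free.mono {A : V → V → Prop} {D E : Set V} (h : Free A D) (hs : E ⊆ D) : Free A E :=
  fun a ha b hb c hc d hd => h a (hs ha) b (hs hb) c (hs hc) d (hs hd)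

theorem nb_sub {A : V → V → Prop} {D : Set V} {w : V} : nb A D w ⊆ D := fun _ h => h.1
theorem non_sub {A : V → V → Prop} {D : Set V} {w : V} : non A D w ⊆ D := fun _ h => h.1

theorem pairs_nb {A : V → V → Prop} (hs : ∀ x y, A x y → A y x) {D : Set V} {w : V}
    (h : PairsOn A D) (hw : w ∈ D) : PairsOn A (nb A D w) := by
  rintro u ⟨hu, hwu⟩ v ⟨hv, hwv⟩ h1 h2
  obtain ⟨g, hg, g1, g2, g3, g4⟩ := h u hu v hv h1 h2
  have h5 := g4 w hw ⟨fun _ => hs _ _ hwv, fun _ => hs _ _ hwu⟩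
  exact ⟨g, ⟨hg, hs _ _ (h5.2 (hs _ _ hwu))⟩, g1, g2, g3, fun y hy => g4 y hy.1⟩

theorem pairs_non {A : V → V → Prop} (hs : ∀ x y, A x y → A y x) {D : Set V} {w : V}
    (h : PairsOn A D) (hw : w ∈ D) : PairsOn A (non A D w) := by
  rintro u ⟨hu, hwu⟩ v ⟨hv, hwv⟩ h1 h2
  obtain ⟨g, hg, g1, g2, g3, g4⟩ := h u hu v hv h1 h2
  have h5 := g4 w hw ⟨fun h => absurd (hs _ _ h) hwu, fun h => absurd (hs _ _ h) hwv⟩
  exact ⟨g, ⟨hg, fun h6 => hwu (hs _ _ (h5.1 (hs _ _ h6)))⟩, g1, g2, g3, fun y hy => g4 y hy.1⟩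

/-- a vertex which is constant on `D` -/
def Const (A : V → V → Prop) (D : Set V) : Prop :=
  ∃ z ∈ D, (∀ y ∈ D, ¬ A z y) ∨ (∀ y ∈ D, A z y)

/-- (1) -/
theorem plus {A : V → V → Prop} (hs : ∀ x y, A x y → A y x) {D : Set V} (hP : PairsOn A D) {w : V}
    (hw : w ∈ D) (hl : ¬ A w w) (hc : Const A (nb A D w)) :
    ∃ x ∈ D, A x x ∧ A w x ∧ ∀ y ∈ D, A w y → A x y := by
  obtain ⟨x, ⟨hxD, hwx⟩, h | h⟩ := hc
  · have hxx : ¬ A x x := h x ⟨hxD, hwx⟩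
    obtain ⟨g, hg, g1, g2, g3, -⟩ := hP w hw x hxD
      ⟨fun h => absurd h hl, fun h => absurd h hxx⟩ ⟨fun _ => hl, fun _ => hwx⟩
    exact absurd (hs _ _ (g3.2 hl)) (h g ⟨hg, hs _ _ (g2.2 hl)⟩)
  · exact ⟨x, hxD, h x ⟨hxD, hwx⟩, hwx, fun y hy hwy => h y ⟨hy, hwy⟩⟩

/-- the row of `b` is maximal in `D` -/
def Mx (A : V → V → Prop) (D : Set V) (b : V) : Prop :=
  b ∈ D ∧ ∀ x ∈ D, (∀ y ∈ D, A b y → A x y) → ∀ y ∈ D, A x y → A b y

theorem exists_mx [Finite V] (A : V → V → Prop) {D : Set V} (h : ∃ x ∈ D, ∃ y ∈ D, A x y) :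
    ∃ b, Mx A D b ∧ ∃ y ∈ D, A b y := by
  obtain ⟨x, hx, y, hy, hxy⟩ := h
  obtain ⟨b, hb, hmax⟩ := Set.exists_max_image D (fun b => (nb A D b).ncard) (Set.toFinite D) ⟨x, hx⟩
  refine ⟨b, ⟨hb, ?_⟩, ?_⟩
  · intro z hz h1 y hy hzy
    by_contra hn
    have hlt : nb A D b ⊂ nb A D z := by
      refine ⟨fun t ht => ⟨ht.1, h1 t ht.1 ht.2⟩, fun hsub => hn (hsub ⟨hy, hzy⟩).2⟩
    have := Set.ncard_lt_ncard hlt (Set.toFinite _)
    have h2 := hmax z hz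
    omega
  · have h1 : 0 < (nb A D x).ncard := (Set.ncard_pos (Set.toFinite _)).2 ⟨y, hy, hxy⟩
    have h2 := hmax x hx
    have h3 : 0 < (nb A D b).ncard := by omega
    obtain ⟨t, ht⟩ := (Set.ncard_pos (Set.toFinite _)).1 h3
    exact ⟨t, ht.1, ht.2⟩

/-- **Claim A** -/
theorem claimA [Finite V] {A : V → V → Prop} (hs : ∀ x y, A x y → A y x) :
    ∀ (n : ℕ) (D : Set V), D.ncard = n → D.Nonempty → Free A D → PairsOn A D → Const A D := by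
  intro n
  induction n using Nat.strong_induction_on with
  | _ n ih =>
  intro D hn hne hF hP
  by_cases hiso : ∃ z ∈ D, ∀ y ∈ D, ¬ A z y
  · obtain ⟨z, hz, h⟩ := hiso
    exact ⟨z, hz, Or.inl h⟩
  push Not at hiso
  -- (1)
  have h1 : ∀ w ∈ D, ¬ A w w → ∃ x ∈ D, A x x ∧ A w x ∧ ∀ y ∈ D, A w y → A x y := by
    intro w hw hl
    refine plus hs hP hw hl (ih (nb A D w).ncard ?_ _ rfl ?_ (hF.mono nb_sub) (pairs_nb hs hP hw))
    · rw [← hn]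
      exact Set.ncard_lt_ncard ⟨nb_sub, fun h => hl (h hw).2⟩ (Set.toFinite _)
    · obtain ⟨y, hy, hwy⟩ := hiso w hw
      exact ⟨y, hy, hwy⟩
  obtain ⟨x0, hx0⟩ := hne
  obtain ⟨y0, hy0, hxy0⟩ := hiso x0 hx0
  obtain ⟨b, ⟨hb, hmax⟩, -⟩ := exists_mx A ⟨x0, hx0, y0, hy0, hxy0⟩
  have hbb : A b b := by
    by_contra hl
    obtain ⟨x, hx, hxx, hbx, hsub⟩ := h1 b hb hl
    exact hl (hmax x hx hsub b hb (hs _ _ hbx))
  by_cases hfull : ∀ y ∈ D, A b y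
  · exact ⟨b, hb, Or.inr hfull⟩
  exfalso
  push Not at hfull
  obtain ⟨y1, hy1, hby1⟩ := hfull
  obtain ⟨z, ⟨hz, hbz⟩, h | h⟩ := ih (non A D b).ncard (by
    rw [← hn]
    exact Set.ncard_lt_ncard ⟨non_sub, fun h => (h hb).2 hbb⟩ (Set.toFinite _)) _ rfl
    ⟨y1, hy1, hby1⟩ (hF.mono non_sub) (pairs_non hs hP hb)
  · -- `z` isolated in `G`
    have hzz : ¬ A z z := h z ⟨hz, hbz⟩
    obtain ⟨c, hc, hcc, hzc, hsub⟩ := h1 z hz hzz
    have hbc : A b c := by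
      by_contra hn
      exact h c ⟨hc, hn⟩ hzc
    by_cases hall : ∀ y ∈ D, A b y → A c y
    · exact hbz (hmax c hc hall z hz (hs _ _ hzc))
    · push Not at hall
      obtain ⟨a, ha, hba, hca⟩ := hall
      exact hF a ha b hb c hc z hz ⟨hs _ _ hba, hbc, hs _ _ hzc, fun h => hca (hs _ _ h),
        fun h => hca (hsub a ha (hs _ _ h)), hbz⟩
  · -- `z` full in `G`
    have hzz : A z z := h z ⟨hz, hbz⟩
    obtain ⟨g, hg, g1, g2, g3, -⟩ := hP z hz b hb ⟨fun _ => hbb, fun _ => hzz⟩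
      ⟨fun h => absurd (hs _ _ h) hbz, fun h => absurd hzz h⟩
    have hgb : ¬ A b g := fun h => g3.1 (hs _ _ h) hzz
    exact g2.1 (hs _ _ (h g ⟨hg, hgb⟩)) hzz

theorem claimA' [Finite V] {A : V → V → Prop} (hs : ∀ x y, A x y → A y x) {D : Set V}
    (hne : D.Nonempty) (hF : Free A D) (hP : PairsOn A D) : Const A D :=
  claimA hs _ D rfl hne hF hP

/-- the component of `x` in a `P4`-free set -/
def comp (A : V → V → Prop) (D : Set V) (x : V) : Set V :=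
  {z | z ∈ D ∧ (z = x ∨ A x z ∨ ∃ y ∈ D, A x y ∧ A y z)}

theorem comp_closed {A : V → V → Prop} {D : Set V} (hF : Free A D)
    {x : V} (hx : x ∈ D) {z w : V} (hz : z ∈ comp A D x) (hw : w ∈ D) (h : A z w) :
    w ∈ comp A D x := by
  obtain ⟨hzD, rfl | hxz | ⟨y, hy, hxy, hyz⟩⟩ := hz
  · exact ⟨hw, Or.inr (Or.inl h)⟩
  · exact ⟨hw, Or.inr (Or.inr ⟨z, hzD, hxz, h⟩)⟩
  · by_contra hn
    have h1 : ¬ A x w := fun h1 => hn ⟨hw, Or.inr (Or.inl h1)⟩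
    have h2 : ¬ A y w := fun h2 => hn ⟨hw, Or.inr (Or.inr ⟨y, hy, hxy, h2⟩)⟩
    have h3 : ¬ A x z := fun h3 => hn ⟨hw, Or.inr (Or.inr ⟨z, hzD, h3, h⟩)⟩
    exact hF x hx y hy z hzD w hw ⟨hxy, hyz, h, h3, h1, h2⟩

theorem comp_trans {A : V → V → Prop} (hs : ∀ x y, A x y → A y x) {D : Set V} (hF : Free A D)
    {x u v : V} (hu : u ∈ comp A D x) (hv : v ∈ comp A D x) (hx : x ∈ D) : v ∈ comp A D u := by
  have huD := hu.1
  have hxu : x ∈ comp A D u := by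
    obtain ⟨-, rfl | h | ⟨y, hy, hxy, hyu⟩⟩ := hu
    · exact ⟨hx, Or.inl rfl⟩
    · exact ⟨hx, Or.inr (Or.inl (hs _ _ h))⟩
    · exact ⟨hx, Or.inr (Or.inr ⟨y, hy, hs _ _ hyu, hs _ _ hxy⟩)⟩
  obtain ⟨hvD, rfl | h | ⟨y, hy, hxy, hyv⟩⟩ := hv
  · exact hxu
  · exact comp_closed hF huD hxu hvD h
  · exact comp_closed hF huD (comp_closed hF huD hxu hy hxy) hvD hyv

/-- **Claim A, component version** -/
theorem claimK [Finite V] {A : V → V → Prop} (hs : ∀ x y, A x y → A y x) {D : Set V}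
    (hF : Free A D) (hP : PairsOn A D) {x : V} (hx : x ∈ D) (hxn : ∃ y ∈ D, A x y) :
    ∃ f ∈ D, A f f ∧ A f x ∧ ∀ y ∈ D, ∀ z ∈ D, A f y → A y z → A f z := by
  have hPK : PairsOn A (comp A D x) := by
    intro u hu v hv h1 h2
    obtain ⟨g, hg, g1, g2, g3, g4⟩ := hP u hu.1 v hv.1 h1 h2
    refine ⟨g, ?_, g1, g2, g3, fun y hy => g4 y hy.1⟩
    by_cases hl : A u u
    · obtain ⟨-, rfl | h | ⟨y, hy, huy, hyv⟩⟩ := comp_trans hs hF hu hv hx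
      · exact absurd hl (h2.1 hl)
      · exact absurd hl (h2.1 h)
      · have hyK : y ∈ comp A D x := comp_closed hF hx hu hy huy
        have h5 := g4 y hy ⟨fun _ => hs _ _ hyv, fun _ => huy⟩
        exact comp_closed hF hx hyK hg (hs _ _ (h5.2 huy))
    · exact comp_closed hF hx hu hg (hs _ _ (g2.2 hl))
  have hxK : x ∈ comp A D x := ⟨hx, Or.inl rfl⟩
  obtain ⟨k, hk, h | h⟩ := claimA' hs ⟨x, hxK⟩ (hF.mono fun _ h => h.1) hPK
  · exfalso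
    have h' : ∀ y ∈ D, ¬ A k y := fun y hy hky => h y (comp_closed hF hx hk hy hky) hky
    obtain ⟨-, rfl | hxk | ⟨y, hy, hxy, hyk⟩⟩ := hk
    · obtain ⟨y, hy, hxy⟩ := hxn
      exact h' y hy hxy
    · exact h' x hx (hs _ _ hxk)
    · exact h' y hy (hs _ _ hyk)
  · exact ⟨k, hk.1, h k hk, h x hxK, fun y hy z hz hky hyz =>
      h z (comp_closed hF hx (comp_closed hF hx hk hy hky) hz hyz)⟩

/-- `g` sees exactly `{a, b}`, `{c, d}`, `{a, c}` or `{b, d}` -/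
def Bad (A : V → V → Prop) (a b c d g : V) : Prop := (A g a ↔ ¬ A g d) ∧ (A g b ↔ ¬ A g c)

/-- (2) -/
theorem two [Finite V] {A : V → V → Prop} (hs : ∀ x y, A x y → A y x) {C : Set V}
    (hP : PairsOn A C)
    (h0 : ∀ w ∈ C, (∃ p ∈ C, A w p) → (∃ q ∈ C, ¬ A w q) → Free A (nb A C w) ∧ Free A (non A C w))
    {b c : V} (hb : b ∈ C) (hc : c ∈ C) (hcc : A c c) (hbc : A b c)
    (hD : ∃ y ∈ C, A b y ∧ ¬ A c y) :
    ∃ a ∈ C, A b a ∧ ¬ A c a ∧ ∀ y ∈ C, A b y → ¬ A c y → ¬ A a y := by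
  obtain ⟨y, hy, hby, hcy⟩ := hD
  have hsub : non A (nb A C b) c ⊆ non A C c := fun t ht => ⟨ht.1.1, ht.2⟩
  have hF : Free A (non A (nb A C b) c) := (h0 c hc ⟨c, hc, hcc⟩ ⟨y, hy, hcy⟩).2.mono hsub
  have hP' : PairsOn A (non A (nb A C b) c) := pairs_non hs (pairs_nb hs hP hb) ⟨hc, hbc⟩
  obtain ⟨a, ⟨⟨ha, hba⟩, hca⟩, h | h⟩ := claimA' hs (D := non A (nb A C b) c) ⟨y, ⟨hy, hby⟩, hcy⟩ hF hP'
  · exact ⟨a, ha, hba, hca, fun y hy h1 h2 => h y ⟨⟨hy, h1⟩, h2⟩⟩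
  · exfalso
    have haa : A a a := h a ⟨⟨ha, hba⟩, hca⟩
    obtain ⟨g, hg, g1, g2, g3, g4⟩ := hP a ha c hc ⟨fun _ => hcc, fun _ => haa⟩
      ⟨fun h => absurd (hs _ _ h) hca, fun h => absurd haa h⟩
    have hgb : A g b := (g4 b hb ⟨fun _ => hs _ _ hbc, fun _ => hs _ _ hba⟩).2 (hs _ _ hba)
    exact g2.1 (hs _ _ (h g ⟨⟨hg, hs _ _ hgb⟩, fun h => g3.1 (hs _ _ h) haa⟩)) haa

/-- the core: a minimal cylinder without full vertex -/
theorem core [Finite V] {A : V → V → Prop} (hs : ∀ x y, A x y → A y x) {C : Set V}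
    (hP : PairsOn A C)
    (h0 : ∀ w ∈ C, (∃ p ∈ C, A w p) → (∃ q ∈ C, ¬ A w q) → Free A (nb A C w) ∧ Free A (non A C w))
    (hne : ¬ Free A C) (hfull : ∀ z ∈ C, ∃ y ∈ C, ¬ A z y) :
    ∃ a ∈ C, ∃ b ∈ C, ∃ c ∈ C, ∃ d ∈ C, P4 A a b c d ∧ ¬ A a a ∧ A b b ∧ A c c ∧ ¬ A d d ∧
      ∀ g ∈ C, ¬ Bad A a b c d g := by
  -- (1)
  have h1 : ∀ w ∈ C, ¬ A w w → (∃ y ∈ C, A w y) →
      ∃ x ∈ C, A x x ∧ A w x ∧ ∀ y ∈ C, A w y → A x y := by
    rintro w hw hl ⟨y, hy, hwy⟩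
    exact plus hs hP hw hl (claimA' hs ⟨y, hy, hwy⟩ (h0 w hw ⟨y, hy, hwy⟩ ⟨w, hw, hl⟩).1
      (pairs_nb hs hP hw))
  have hne' : ∃ p ∈ C, ∃ q ∈ C, ∃ r ∈ C, ∃ s ∈ C, P4 A p q r s := by
    unfold Free at hne
    push Not at hne
    exact hne
  obtain ⟨p, hp, q, hq, r, hr, s, hs', hP4⟩ := hne'
  obtain ⟨b, ⟨hb, hmax⟩, hbn⟩ := exists_mx A ⟨p, hp, q, hq, hP4.1⟩
  have hbb : A b b := by
    by_contra hl
    obtain ⟨x, hx, hxx, hbx, hsub⟩ := h1 b hb hl hbn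
    exact hl (hmax x hx hsub b hb (hs _ _ hbx))
  obtain ⟨y1, hy1, hby1⟩ := hfull b hb
  obtain ⟨hF1, hF2⟩ := h0 b hb ⟨b, hb, hbb⟩ ⟨y1, hy1, hby1⟩
  -- an edge leaving `N(b)`
  have hedge : ∃ y ∈ C, A b y ∧ ∃ y' ∈ C, ¬ A b y' ∧ A y y' := by
    by_contra hcon
    push Not at hcon
    obtain ⟨pq, qr, rs, pr, ps, qs⟩ := hP4
    have e : ∀ y ∈ C, ∀ y' ∈ C, A y y' → (A b y ↔ A b y') := by
      intro y hy y' hy' hyy
      constructor
      · intro h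
        by_contra hn
        exact hcon y hy h y' hy' hn hyy
      · intro h
        by_contra hn
        exact hcon y' hy' h y hy hn (hs _ _ hyy)
    have e1 := e p hp q hq pq
    have e2 := e q hq r hr qr
    have e3 := e r hr s hs' rs
    by_cases hbp : A b p
    · exact hF1 p ⟨hp, hbp⟩ q ⟨hq, e1.1 hbp⟩ r ⟨hr, e2.1 (e1.1 hbp)⟩ s
        ⟨hs', e3.1 (e2.1 (e1.1 hbp))⟩ ⟨pq, qr, rs, pr, ps, qs⟩
    · exact hF2 p ⟨hp, hbp⟩ q ⟨hq, fun h => hbp (e1.2 h)⟩ r ⟨hr, fun h => hbp (e1.2 (e2.2 h))⟩ s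
        ⟨hs', fun h => hbp (e1.2 (e2.2 (e3.2 h)))⟩ ⟨pq, qr, rs, pr, ps, qs⟩
  -- (3)
  have h3 : ∃ d ∈ C, ¬ A d d ∧ ¬ A b d ∧ (∃ y ∈ C, A d y) ∧ ∀ y ∈ C, A d y → A b y := by
    have hc : ∃ c ∈ C, A c c ∧ A c b ∧ ∃ y ∈ C, A c y ∧ ¬ A b y := by
      obtain ⟨y, hy, hby, y', hy', hby', hyy⟩ := hedge
      by_cases hl : A y y
      · exact ⟨y, hy, hl, hs _ _ hby, y', hy', hyy, hby'⟩
      · obtain ⟨x, hx, hxx, hyx, hsub⟩ := h1 y hy hl ⟨y', hy', hyy⟩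
        exact ⟨x, hx, hxx, hsub b hb (hs _ _ hby), y', hy', hsub y' hy' hyy, hby'⟩
    obtain ⟨c, hc, hcc, hcb, hcD⟩ := hc
    obtain ⟨d', hd', hcd', hbd', hiso⟩ := two hs hP h0 hc hb hbb hcb hcD
    have hdd' : ¬ A d' d' := hiso d' hd' hcd' hbd'
    obtain ⟨q, hq, hqq, hdq, hsub⟩ := h1 d' hd' hdd' ⟨c, hc, hs _ _ hcd'⟩
    have hqc : A q c := hsub c hc (hs _ _ hcd')
    have hqb : A b q := by
      by_contra hn
      exact hiso q hq (hs _ _ hqc) hn hdq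
    by_cases hall : ∀ y ∈ C, A d' y → A b y
    · exact ⟨d', hd', hdd', hbd', ⟨c, hc, hs _ _ hcd'⟩, hall⟩
    · push Not at hall
      obtain ⟨y, hy, hdy, hby⟩ := hall
      obtain ⟨f, ⟨hf, hbf⟩, hff, hfd, hcl⟩ := claimK hs hF2 (pairs_non hs hP hb)
        (x := d') ⟨hd', hbd'⟩ ⟨y, ⟨hy, hby⟩, hdy⟩
      obtain ⟨g, hg, g1, g2, g3, g4⟩ := hP f hf b hb ⟨fun _ => hbb, fun _ => hff⟩
        ⟨fun h => absurd (hs _ _ h) hbf, fun h => absurd hff h⟩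
      have hgg : ¬ A g g := fun h => g1.1 h hff
      have hgf : ¬ A g f := fun h => g2.1 h hff
      have hgb : ¬ A g b := fun h => g3.1 h hff
      have hbg : ¬ A b g := fun h => hgb (hs _ _ h)
      refine ⟨g, hg, hgg, hbg, ⟨q, hq, ?_⟩, ?_⟩
      · have hfq : A f q := hs _ _ (hsub f hf (hs _ _ hfd))
        exact (g4 q hq ⟨fun _ => hqb, fun _ => hfq⟩).2 hfq
      · intro z hz hgz
        by_contra hbz
        have hfz : A f z := by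
          by_contra hfz
          exact hfz ((g4 z hz ⟨fun h => absurd h hfz, fun h => absurd h hbz⟩).1 hgz)
        exact hgf (hs _ _ (hcl z ⟨hz, hbz⟩ g ⟨hg, hbg⟩ hfz (hs _ _ hgz)))
  obtain ⟨d, hd, hdd, hbd, hdn, hdb⟩ := h3
  -- (4)
  obtain ⟨c, hc, hcc, hdc, hsub⟩ := h1 d hd hdd hdn
  have hbc : A b c := hdb c hc hdc
  have hD : ∃ y ∈ C, A b y ∧ ¬ A c y := by
    by_contra hcon
    push Not at hcon
    exact hbd (hmax c hc hcon d hd (hs _ _ hdc))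
  obtain ⟨a, ha, hba, hca, hiso⟩ := two hs hP h0 hb hc hcc hbc hD
  have haa : ¬ A a a := hiso a ha hba hca
  have had : ¬ A a d := fun h => hca (hsub a ha (hs _ _ h))
  refine ⟨a, ha, b, hb, c, hc, d, hd,
    ⟨hs _ _ hba, hbc, hs _ _ hdc, fun h => hca (hs _ _ h), had, hbd⟩, haa, hbb, hcc, hdd, ?_⟩
  -- (5)
  rintro g hg ⟨b1, b2⟩
  by_cases hgd : A g d
  · have hgb : A g b := hs _ _ (hdb g hg (hs _ _ hgd))
    exact b2.1 hgb (hs _ _ (hsub g hg (hs _ _ hgd)))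
  · have hga : A g a := b1.2 hgd
    by_cases hgc : A g c
    · have hgb : ¬ A g b := fun h => b2.1 h hgc
      -- sees exactly `a, c`
      obtain ⟨f, ⟨hf, hdf⟩, hff, hfa, hcl⟩ := claimK hs (h0 d hd hdn ⟨d, hd, hdd⟩).2
        (pairs_non hs hP hd) (x := a) ⟨ha, fun h => had (hs _ _ h)⟩
        ⟨b, ⟨hb, fun h => hbd (hs _ _ h)⟩, hs _ _ hba⟩
      have hdb' : ¬ A d b := fun h => hbd (hs _ _ h)
      have hda' : ¬ A d a := fun h => had (hs _ _ h)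
      have hdg' : ¬ A d g := fun h => hgd (hs _ _ h)
      have hfb : A f b := hcl a ⟨ha, hda'⟩ b ⟨hb, hdb'⟩ hfa (hs _ _ hba)
      have hfg : A f g := hcl a ⟨ha, hda'⟩ g ⟨hg, hdg'⟩ hfa (hs _ _ hga)
      have hfc : A f c := by
        by_contra hn
        exact hiso f hf (hs _ _ hfb) (fun h => hn (hs _ _ h)) (hs _ _ hfa)
      have hv : ∃ v ∈ C, A d v ∧ ¬ A f v := by
        by_contra hcon
        push Not at hcon
        have : ∀ y ∈ C, A b y → A f y := by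
          intro y hy hby
          by_cases hdy : A d y
          · exact hcon y hy hdy
          · exact hcl b ⟨hb, hdb'⟩ y ⟨hy, hdy⟩ hfb hby
        exact hgb (hs _ _ (hmax f hf this g hg hfg))
      obtain ⟨v, hv, hdv, hfv⟩ := hv
      have hbv : A b v := hdb v hv hdv
      have hcv : A c v := hsub v hv hdv
      exact (h0 c hc ⟨c, hc, hcc⟩ ⟨a, ha, hca⟩).1 f ⟨hf, hs _ _ hfc⟩ b ⟨hb, hs _ _ hbc⟩
        v ⟨hv, hcv⟩ d ⟨hd, hs _ _ hdc⟩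
        ⟨hfb, hbv, hs _ _ hdv, hfv, fun h => hdf (hs _ _ h), hbd⟩
    · exact hiso g hg (hs _ _ (b2.2 hgc)) (fun h => hgc (hs _ _ h)) (hs _ _ hga)

end Pool.Agent.H61.P3
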