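import Pool.Agent.H61.P3.Abs

set_option autoImplicit false

/-!
The abstract lemma of target (C) of MP_a46c6f_co: minimal cylinders, complement, and the matrix form.
-/

namespace Pool.Agent.H61.P3

variable {V : Type*}

/-- a cylinder: the vertices which see all of `P` and nothing of `G` -/
def Cyl (A : V → V → Prop) (C : Set V) : Prop :=
  ∃ P G : Set V, ∀ x, x ∈ C ↔ (∀ p ∈ P, A p x) ∧ ∀ p ∈ G, ¬ A p x

theorem cyl_univ (A : V → V → Prop) : Cyl A Set.univ :=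
  ⟨∅, ∅, fun x => by simp⟩

theorem Cyl.nb {A : V → V → Prop} {C : Set V} (h : Cyl A C) (w : V) : Cyl A (nb A C w) := by
  obtain ⟨P, G, h⟩ := h
  refine ⟨insert w P, G, fun x => ?_⟩
  constructor
  · rintro ⟨hx, hwx⟩
    obtain ⟨h1, h2⟩ := (h x).1 hx
    refine ⟨?_, h2⟩
    rintro p (rfl | hp)
    · exact hwx
    · exact h1 p hp
  · rintro ⟨h1, h2⟩
    exact ⟨(h x).2 ⟨fun p hp => h1 p (Or.inr hp), h2⟩, h1 w (Or.inl rfl)⟩

theorem Cyl.non {A : V → V → Prop} {C : Set V} (h : Cyl A C) (w : V) : Cyl A (non A C w) := by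
  obtain ⟨P, G, h⟩ := h
  refine ⟨P, insert w G, fun x => ?_⟩
  constructor
  · rintro ⟨hx, hwx⟩
    obtain ⟨h1, h2⟩ := (h x).1 hx
    refine ⟨h1, ?_⟩
    rintro p (rfl | hp)
    · exact hwx
    · exact h2 p hp
  · rintro ⟨h1, h2⟩
    exact ⟨(h x).2 ⟨h1, fun p hp => h2 p (Or.inr hp)⟩, h2 w (Or.inl rfl)⟩

theorem Cyl.pairs {A : V → V → Prop} (hs : ∀ x y, A x y → A y x) {C : Set V} (h : Cyl A C)
    (hP : PairsOn A Set.univ) : PairsOn A C := by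
  obtain ⟨P, G, h⟩ := h
  intro u hu v hv h1 h2
  obtain ⟨g, -, g1, g2, g3, g4⟩ := hP u trivial v trivial h1 h2
  obtain ⟨u1, u2⟩ := (h u).1 hu
  obtain ⟨v1, v2⟩ := (h v).1 hv
  refine ⟨g, (h g).2 ⟨?_, ?_⟩, g1, g2, g3, fun y _ => g4 y trivial⟩
  · intro p hp
    have h5 := g4 p trivial ⟨fun _ => hs _ _ (v1 p hp), fun _ => hs _ _ (u1 p hp)⟩
    exact hs _ _ (h5.2 (hs _ _ (u1 p hp)))
  · intro p hp h6
    have h5 := g4 p trivial ⟨fun h => absurd (hs _ _ h) (u2 p hp), fun h => absurd (hs _ _ h) (v2 p hp)⟩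
    exact u2 p hp (hs _ _ (h5.1 (hs _ _ h6)))

/-- the complement -/
def co (A : V → V → Prop) : V → V → Prop := fun x y => ¬ A x y

theorem pairs_co {A : V → V → Prop} {D : Set V} (h : PairsOn A D) : PairsOn (co A) D := by
  intro u hu v hv h1 h2
  obtain ⟨g, hg, g1, g2, g3, g4⟩ := h u hu v hv (not_iff_not.1 h1) (by unfold co at h2; tauto)
  refine ⟨g, hg, by unfold co; tauto, by unfold co; tauto, by unfold co; tauto, ?_⟩
  intro y hy h3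
  exact not_iff_not.2 (g4 y hy (not_iff_not.1 h3))

theorem free_co {A : V → V → Prop} (hs : ∀ x y, A x y → A y x) {D : Set V} (h : Free A D) :
    Free (co A) D := by
  rintro a ha b hb c hc d hd ⟨h1, h2, h3, h4, h5, h6⟩
  unfold co at h1 h2 h3 h4 h5 h6
  rw [not_not] at h4 h5 h6
  exact h c hc a ha d hd b hb ⟨hs _ _ h4, h5, hs _ _ h6, h3, fun h => h2 (hs _ _ h), h1⟩

theorem co_co (A : V → V → Prop) : co (co A) = A := by
  funext x y
  simp [co]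

theorem core2 [Finite V] {A : V → V → Prop} (hs : ∀ x y, A x y → A y x) {C : Set V}
    (hP : PairsOn A C)
    (h0 : ∀ w ∈ C, (∃ p ∈ C, A w p) → (∃ q ∈ C, ¬ A w q) → Free A (nb A C w) ∧ Free A (non A C w))
    (hne : ¬ Free A C) :
    ∃ a ∈ C, ∃ b ∈ C, ∃ c ∈ C, ∃ d ∈ C, P4 A a b c d ∧ ¬ A a a ∧ A b b ∧ A c c ∧ ¬ A d d ∧
      ∀ g ∈ C, ¬ Bad A a b c d g := by
  by_cases hfull : ∀ z ∈ C, ∃ y ∈ C, ¬ A z y
  · exact core hs hP h0 hne hfull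
  push Not at hfull
  obtain ⟨z, hz, hzf⟩ := hfull
  have hs' : ∀ x y, co A x y → co A y x := fun x y h h' => h (hs _ _ h')
  have hnn : ∀ w, non (co A) C w = nb A C w := by
    intro w
    ext x
    simp [non, nb, co]
  obtain ⟨a, ha, b, hb, c, hc, d, hd, ⟨h1, h2, h3, h4, h5, h6⟩, l1, l2, l3, l4, hg⟩ :=
    core (A := co A) hs' (pairs_co hP) (by
      intro w hw hp hq
      obtain ⟨q, hq, hq'⟩ := hq
      obtain ⟨e1, e2⟩ := h0 w hw ⟨q, hq, not_not.1 hq'⟩ hp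
      refine ⟨free_co hs e2, ?_⟩
      rw [hnn]
      exact free_co hs e1) (by
      intro h
      apply hne
      have := free_co hs' h
      rwa [co_co] at this) (fun w hw => ⟨z, hz, fun h => h (hs _ _ (hzf w hw))⟩)
  unfold co at h1 h2 h3 h4 h5 h6 l1 l2 l3 l4
  rw [not_not] at h4 h5 h6 l1 l4
  refine ⟨c, hc, a, ha, d, hd, b, hb, ⟨hs _ _ h4, h5, hs _ _ h6, h3, fun h => h2 (hs _ _ h), h1⟩,
    l3, l1, l4, l2, ?_⟩
  rintro g hgC ⟨b1, b2⟩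
  apply hg g hgC
  unfold Bad co
  tauto

/-- **the abstract lemma**, relation form -/
theorem exists_good [Finite V] {A : V → V → Prop} (hs : ∀ x y, A x y → A y x)
    (hP : PairsOn A Set.univ) (hne : ¬ Free A Set.univ) :
    ∃ a b c d, P4 A a b c d ∧ ¬ A a a ∧ A b b ∧ A c c ∧ ¬ A d d ∧
      ∀ g, (∀ y, (A a y ↔ A b y) → (A b y ↔ A c y) → (A c y ↔ A d y) → (A g y ↔ A a y)) →
        ¬ Bad A a b c d g := by
  obtain ⟨C, ⟨hC, hCne⟩, hmin⟩ := (wellFounded_lt : WellFounded ((· < ·) : Set V → Set V → Prop)).has_min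
    {C | Cyl A C ∧ ¬ Free A C} ⟨Set.univ, cyl_univ A, hne⟩
  have h0 : ∀ w ∈ C, (∃ p ∈ C, A w p) → (∃ q ∈ C, ¬ A w q) →
      Free A (nb A C w) ∧ Free A (non A C w) := by
    rintro w hw ⟨p, hp, hwp⟩ ⟨q, hq, hwq⟩
    constructor
    · by_contra hn
      refine hmin (nb A C w) ⟨hC.nb w, hn⟩ ⟨nb_sub, fun h => hwq (h hq).2⟩
    · by_contra hn
      refine hmin (non A C w) ⟨hC.non w, hn⟩ ⟨non_sub, fun h => (h hp).2 hwp⟩
  obtain ⟨a, ha, b, hb, c, hc, d, hd, h1, l1, l2, l3, l4, hg⟩ := core2 hs (hC.pairs hs hP) h0 hCne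
  refine ⟨a, b, c, d, h1, l1, l2, l3, l4, fun g hcy => hg g ?_⟩
  obtain ⟨P, G, h⟩ := hC
  obtain ⟨a1, a2⟩ := (h a).1 ha
  obtain ⟨b1, b2⟩ := (h b).1 hb
  obtain ⟨c1, c2⟩ := (h c).1 hc
  obtain ⟨d1, d2⟩ := (h d).1 hd
  rw [h]
  constructor
  · intro p hp
    have ea := hs _ _ (a1 p hp)
    have eb := hs _ _ (b1 p hp)
    have ec := hs _ _ (c1 p hp)
    have ed := hs _ _ (d1 p hp)
    exact hs _ _ ((hcy p (by tauto) (by tauto) (by tauto)).2 ea)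
  · intro p hp h6
    have ea : ¬ A a p := fun h => a2 p hp (hs _ _ h)
    have eb : ¬ A b p := fun h => b2 p hp (hs _ _ h)
    have ec : ¬ A c p := fun h => c2 p hp (hs _ _ h)
    have ed : ¬ A d p := fun h => d2 p hp (hs _ _ h)
    exact ea ((hcy p (by tauto) (by tauto) (by tauto)).1 (hs _ _ h6))

theorem z2 (x : ZMod 2) : x = 0 ∨ x = 1 := by
  revert x; decide

/-- **the abstract lemma**, matrix form (P3') -/
theorem p3' [Finite V] (M : V → V → ZMod 2) (hs : ∀ x y, M x y = M y x)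
    (hP : ∀ u v, M u u = M v v → M u v ≠ M u u → ∃ g, M g g ≠ M u u ∧ M g u = M g g ∧
      M g v = M g g ∧ ∀ x, M u x = M v x → M g x = M u x)
    (hne : ∃ a b c d, M a b = 1 ∧ M b c = 1 ∧ M c d = 1 ∧ M a c = 0 ∧ M a d = 0 ∧ M b d = 0) :
    ∃ a b c d, (M a b = 1 ∧ M b c = 1 ∧ M c d = 1 ∧ M a c = 0 ∧ M a d = 0 ∧ M b d = 0) ∧
      M a a = 0 ∧ M b b = 1 ∧ M c c = 1 ∧ M d d = 0 ∧
      ∀ w, (∀ y, M a y = M b y → M b y = M c y → M c y = M d y → M w y = M a y) →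
        ¬ (M w a ≠ M w d ∧ M w b ≠ M w c) := by
  have hn1 : ∀ x : ZMod 2, x ≠ 1 ↔ x = 0 := by decide
  have hi : ∀ x y : ZMod 2, (x = 1 ↔ y = 1) ↔ x = y := by decide
  have hi' : ∀ x y : ZMod 2, (x = 1 ↔ ¬ y = 1) ↔ x ≠ y := by decide
  set A : V → V → Prop := fun x y => M x y = 1 with hA
  have hsA : ∀ x y, A x y → A y x := fun x y h => by
    simp only [hA] at h ⊢
    rw [hs]; exact h
  have hPA : PairsOn A Set.univ := by
    intro u _ v _ h1 h2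
    simp only [hA, hi, hi'] at h1 h2 ⊢
    obtain ⟨g, g1, g2, g3, g4⟩ := hP u v h1 h2
    exact ⟨g, trivial, g1, by rw [g2]; exact g1, by rw [g3]; exact g1, fun y _ h => g4 y h⟩
  obtain ⟨a, b, c, d, ⟨h1, h2, h3, h4, h5, h6⟩, l1, l2, l3, l4, hg⟩ := exists_good hsA hPA (by
    intro hF
    obtain ⟨a, b, c, d, h1, h2, h3, h4, h5, h6⟩ := hne
    refine hF a trivial b trivial c trivial d trivial ⟨h1, h2, h3, ?_, ?_, ?_⟩ <;>
      simp only [hA, h4, h5, h6] <;> decide)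
  simp only [hA] at h1 h2 h3 h4 h5 h6 l1 l2 l3 l4 hg
  refine ⟨a, b, c, d, ⟨h1, h2, h3, (hn1 _).1 h4, (hn1 _).1 h5, (hn1 _).1 h6⟩, (hn1 _).1 l1, l2, l3,
    (hn1 _).1 l4, ?_⟩
  rintro w hw ⟨b1, b2⟩
  refine hg w (fun y e1 e2 e3 => ?_) ⟨(hi' _ _).2 b1, (hi' _ _).2 b2⟩
  rw [hi] at e1 e2 e3 ⊢
  exact hw y e1 e2 e3

end Pool.Agent.H61.P3
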